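import Mathlib

/-!
Definitions used in the statement for MP_8fa6fd_gt.
-/

namespace Pool.Agent.Lib.MP_8fa6fd_gt

open Topology

/-- Every continuous real valued function on `X` is bounded. -/
def Pseudocompact (X : Type*) [TopologicalSpace X] : Prop :=
  ∀ f : X → ℝ, Continuous f → ∃ C : ℝ, ∀ x, |f x| ≤ C

/-- For every sequence of nonempty open sets `U n` one can choose points `x n ∈ U n` such that
some point `p` has every neighbourhood containing `x n` for infinitely many `n`. -/
def SelectivelyPseudocompact (X : Type*) [TopologicalSpace X] : Prop :=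
  ∀ U : ℕ → Set X, (∀ n, IsOpen (U n)) → (∀ n, (U n).Nonempty) →
    ∃ x : ℕ → X, (∀ n, x n ∈ U n) ∧ ∃ p : X, ∀ V ∈ 𝓝 p, {n : ℕ | x n ∈ V}.Infinite

/-- Pontryagin reflexivity: the evaluation map from `H` to its bidual (duals are the groups of
continuous homomorphisms to the circle, with the compact-open topology) is an isomorphism of
topological groups. -/
def Reflexive (H : Type*) [AddCommGroup H] [TopologicalSpace H] : Prop :=
  ∃ e : Multiplicative H ≃ₜ* PontryaginDual (PontryaginDual (Multiplicative H)),
    ∀ (h : Multiplicative H) (χ : PontryaginDual (Multiplicative H)), e h χ = χ h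

/-- `τ` is a Hausdorff pseudocompact group topology on `G`. -/
def IsPseudocompactGroupTopology (G : Type*) [AddCommGroup G] (τ : TopologicalSpace G) : Prop :=
  @IsTopologicalAddGroup G τ _ ∧ @T2Space G τ ∧ @Pseudocompact G τ

end Pool.Agent.Lib.MP_8fa6fd_gt
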