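import Mathlib

/-!
The combinatorial core: from a separating family of characters realising all countable patterns
to a family that in addition realises every character on every countable subset of the group.
-/

namespace Pool.Agent.Lib.MP_8fa6fd_gt

open Filter Cardinal

universe u

/-- Branch trick: patterns on countably many branches of the tree of finite sequences. -/
theorem exists_branch_family {G σ : Type u} [Infinite σ] (χ : σ → G → ZMod 2)
    (hfull : ∀ (a : ℕ → σ) (p : σ → ZMod 2), ∃ g, ∀ n, χ (a n) g = p (a n)) :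
    ∃ d : G → (ℕ → σ) → ZMod 2, ∀ (y : ℕ → ℕ → σ) (p : (ℕ → σ) → ZMod 2),
      ∃ g, ∀ k, d g (y k) = p (y k) := by
  classical
  obtain ⟨enc⟩ : Nonempty (List σ ≃ σ) := Cardinal.eq.1 (Cardinal.mk_list_eq_mk σ)
  let t : (ℕ → σ) → ℕ → σ := fun y n => enc ((List.range n).map y)
  have ht : ∀ y y' : ℕ → σ, y ≠ y' → ∀ᶠ n in atTop, ∀ m, t y n ≠ t y' m := by
    intro y y' hne
    obtain ⟨k, hk⟩ := Function.ne_iff.1 hne
    filter_upwards [eventually_gt_atTop k] with n hn m hnm
    have h1 : (List.range n).map y = (List.range m).map y' := enc.injective hnm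
    have h2 : n = m := by simpa using congrArg List.length h1
    subst h2
    exact hk (List.map_inj_left.1 h1 k (List.mem_range.2 hn))
  refine ⟨fun g y => if ∀ᶠ n in atTop, χ (t y n) g = 1 then 1 else 0, fun y p => ?_⟩
  let π : σ → ZMod 2 := fun s => if h : ∃ k, ∃ n, s = t (y k) n then p (y (Nat.find h)) else 0
  obtain ⟨g, hg⟩ := hfull (fun i => t (y i.unpair.1) i.unpair.2) π
  have hg' : ∀ k n, χ (t (y k) n) g = π (t (y k) n) := fun k n => by
    simpa using hg (Nat.pair k n)
  refine ⟨g, fun k => ?_⟩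
  have hev : ∀ᶠ n in atTop, χ (t (y k) n) g = p (y k) := by
    have h1 : ∀ᶠ n in atTop, ∀ j ∈ Finset.range k, y k ≠ y j → ∀ m, t (y k) n ≠ t (y j) m := by
      rw [Filter.eventually_all_finset]
      intro j _
      by_cases hj : y k = y j
      · exact Eventually.of_forall fun n h => absurd hj h
      · exact (ht _ _ hj).mono fun n h _ => h
    filter_upwards [h1] with n hn
    have hex : ∃ j, ∃ m, t (y k) n = t (y j) m := ⟨k, n, rfl⟩
    rw [hg']
    simp only [π, dif_pos hex]
    have hle : Nat.find hex ≤ k := Nat.find_min' hex ⟨n, rfl⟩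
    obtain ⟨m, hm⟩ := Nat.find_spec hex
    rcases hle.eq_or_lt with h | h
    · rw [h]
    · by_cases hj : y k = y (Nat.find hex)
      · rw [← hj]
      · exact absurd hm (hn _ (Finset.mem_range.2 h) hj m)
  have h01 : ∀ z : ZMod 2, z = 0 ∨ z = 1 := by decide
  rcases h01 (p (y k)) with h | h
  · rw [h] at hev ⊢
    have : ¬ ∀ᶠ n in atTop, χ (t (y k) n) g = 1 := by
      intro h'
      obtain ⟨n, h1, h2⟩ := (hev.and h').exists
      rw [h1] at h2
      exact absurd h2 (by decide)
    simp only [if_neg this]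
  · rw [h] at hev ⊢
    simp only [if_pos hev]

/-- Patterns on countably many points of a set that injects into the power `2 ^ σ`. -/
theorem exists_column_family {ι σ : Type u} [Nonempty σ] (r : ι → σ → ZMod 2)
    (hr : Function.Injective r) :
    ∃ e : (ℕ → σ) × (ℕ → Option (ℕ → ZMod 2)) → ι → ZMod 2, ∀ (i : ℕ → ι) (q : ι → ZMod 2),
      ∃ j, ∀ n, e j (i n) = q (i n) := by
  classical
  refine ⟨fun j x => if ∃ n, j.2 n = some (r x ∘ j.1) then 1 else 0, fun i q => ?_⟩
  have hsep : ∀ n m : ℕ, ∃ s : σ, i n ≠ i m → r (i n) s ≠ r (i m) s := by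
    intro n m
    by_cases h : i n = i m
    · exact ⟨Classical.arbitrary σ, fun h' => absurd h h'⟩
    · obtain ⟨s, hs⟩ := Function.ne_iff.1 (hr.ne h)
      exact ⟨s, fun _ => hs⟩
  choose s hs using hsep
  let a : ℕ → σ := fun k => s k.unpair.1 k.unpair.2
  have ha : ∀ n m, r (i n) ∘ a = r (i m) ∘ a → i n = i m := by
    intro n m h
    by_contra hne
    have := congrFun h (Nat.pair n m)
    simp only [Function.comp, a, Nat.unpair_pair] at this
    exact hs n m hne this
  refine ⟨(a, fun n => if q (i n) = 1 then some (r (i n) ∘ a) else none), fun n => ?_⟩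
  have h01 : ∀ z : ZMod 2, z = 0 ∨ z = 1 := by decide
  rcases h01 (q (i n)) with h | h
  · rw [h]
    refine if_neg ?_
    rintro ⟨m, hm⟩
    by_cases hq : q (i m) = 1
    · simp only [if_pos hq, Option.some.injEq] at hm
      rw [ha _ _ hm, h] at hq
      exact absurd hq (by decide)
    · simp [if_neg hq] at hm
  · rw [h]
    exact if_pos ⟨n, by simp [h]⟩

lemma exists_dominating (a : ℕ → ℕ → ℕ) : ∃ b : ℕ → ℕ, ∀ k, ∀ᶠ n in atTop, a k n < b n := by
  refine ⟨fun n => (∑ k ∈ Finset.range (n + 1), a k n) + 1, fun k => ?_⟩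
  filter_upwards [eventually_ge_atTop k] with n hn
  have : a k n ≤ ∑ k ∈ Finset.range (n + 1), a k n :=
    Finset.single_le_sum (f := fun k => a k n) (fun _ _ => Nat.zero_le _)
      (Finset.mem_range.2 (by omega))
  omega

theorem exists_good_family {G : Type u} [AddCommGroup G] [Infinite G] (hB : ∀ x : G, x + x = 0)
    {σ : Type u} (χ : σ → (G →+ ZMod 2)) (hinj : ∀ g, (∀ s, χ s g = 0) → g = 0)
    (hfull : ∀ (a : ℕ → σ) (p : σ → ZMod 2), ∃ g, ∀ n, χ (a n) g = p (a n)) :
    ∃ (C : Type u) (_ : Infinite C) (ψ : C → (G →+ ZMod 2)),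
      (∀ (c : ℕ → C) (p : C → ZMod 2), ∃ g, ∀ n, ψ (c n) g = p (c n)) ∧
      ∀ (T : Set G), T.Countable → ∀ φ : G →+ ZMod 2, ∃ c, ∀ g ∈ T, ψ c g = φ g := by
  classical
  letI : Module (ZMod 2) G := AddCommGroup.zmodModule (n := 2) (by simpa [two_nsmul] using hB)
  have hinj' : Function.Injective (fun (g : G) (s : σ) => χ s g) := by
    intro g1 g2 h
    rw [← sub_eq_zero]
    refine hinj _ fun s => ?_
    rw [map_sub, sub_eq_zero]
    exact congrFun h s
  have hσ : Infinite σ := by
    by_contra hfin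
    rw [not_infinite_iff_finite] at hfin
    exact not_finite_iff_infinite.2 ‹Infinite G› (Finite.of_injective _ hinj')
  have hc : 𝔠 ≤ #G := by
    let a := Infinite.natEmbedding σ
    have hs : Function.Surjective (fun (g : G) (n : ULift.{u} ℕ) => χ (a n.down) g) := by
      intro v
      obtain ⟨g, hg⟩ := hfull a (Function.extend a (fun n => v ⟨n⟩) 0)
      refine ⟨g, funext fun n => ?_⟩
      show χ (a n.down) g = v n
      rw [hg, a.injective.extend_apply]
    have := Cardinal.mk_le_of_surjective hs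
    simpa using this
  let ι := Module.Basis.ofVectorSpaceIndex (ZMod 2) G
  let b : Module.Basis ι (ZMod 2) G := Module.Basis.ofVectorSpace (ZMod 2) G
  have hιinf : Infinite ι := by
    by_contra hfin
    rw [not_infinite_iff_finite] at hfin
    have : Module.Finite (ZMod 2) G := Module.Finite.of_basis b
    exact not_finite_iff_infinite.2 ‹Infinite G› (Module.finite_of_finite (ZMod 2))
  have hι : #ι = #(G × (ℕ → ℕ)) := by
    have h1 : #G = #ι := by
      rw [b.repr.toEquiv.cardinal_eq, Cardinal.mk_finsupp_lift_of_infinite]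
      simp only [Cardinal.lift_uzero]
      refine max_eq_left ?_
      refine le_trans ?_ (Cardinal.aleph0_le_mk ι)
      simp
    rw [← h1, Cardinal.mk_prod]
    simp only [Cardinal.lift_uzero]
    refine (Cardinal.mul_eq_left (Cardinal.aleph0_le_mk G) ?_ ?_).symm
    · simpa using hc
    · simp [Cardinal.continuum_ne_zero]
  obtain ⟨e⟩ : Nonempty (ι ≃ G × (ℕ → ℕ)) := Cardinal.eq.1 hι
  let J := (ℕ → σ) × (ℕ → Option (ℕ → ZMod 2))
  let C := J × (ℕ → ℕ)
  have hC : #C ≤ #(ℕ → σ) := by
    have h1 : 𝔠 ≤ #(ℕ → σ) := by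
      have : (2 : Cardinal.{u}) ^ ℵ₀ ≤ #σ ^ ℵ₀ :=
        Cardinal.power_le_power_right ((Cardinal.natCast_le_aleph0 (n := 2)).trans
          (Cardinal.aleph0_le_mk σ))
      simpa using this
    have h2 : ℵ₀ ≤ #(ℕ → σ) := Cardinal.aleph0_le_continuum.trans h1
    have h3 : #(ℕ → Option (ℕ → ZMod 2)) = 𝔠 := by
      have h5 : (𝔠 : Cardinal.{0}) + 1 = 𝔠 := Cardinal.add_one_eq Cardinal.aleph0_le_continuum
      simp [h5]
    have h4 : #(ℕ → ℕ) = 𝔠 := by simp
    simp only [C, J, Cardinal.mk_prod, Cardinal.lift_uzero, h3, h4, Cardinal.lift_continuum]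
    rw [Cardinal.mul_eq_left h2 h1 Cardinal.continuum_ne_zero,
      Cardinal.mul_eq_left h2 h1 Cardinal.continuum_ne_zero]
  obtain ⟨β⟩ : Nonempty (C ↪ (ℕ → σ)) := (Cardinal.le_def _ _).1 hC
  obtain ⟨d, hd⟩ := exists_branch_family (fun s g => χ s g) hfull
  obtain ⟨E, hE⟩ := exists_column_family (fun (i : ι) (s : σ) => χ s (b i))
    (hinj'.comp b.injective)
  let M : ι → C → ZMod 2 := fun i c =>
    if ∀ᶠ n in atTop, c.2 n < (e i).2 n then d (e i).1 (β c) else E c.1 i
  let ψ : C → (G →+ ZMod 2) := fun c => (b.constr (ZMod 2) fun i => M i c).toAddMonoidHom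
  have hψ : ∀ c i, ψ c (b i) = M i c := fun c i => by simp [ψ]
  refine ⟨C, inferInstance, ψ, fun c p => ?_, fun T hT φ => ?_⟩
  · obtain ⟨g, hg⟩ := hd (fun k => β (c k)) (Function.extend β p 0)
    obtain ⟨α, hα⟩ := exists_dominating fun k => (c k).2
    refine ⟨b (e.symm (g, α)), fun k => ?_⟩
    rw [hψ]
    simp only [M, Equiv.apply_symm_apply, if_pos (hα k)]
    rw [hg, β.injective.extend_apply]
  · let S : Set ι := insert (Classical.arbitrary ι) (⋃ g ∈ T, ((b.repr g).support : Set ι))
    have hS : S.Countable := (hT.biUnion fun g _ => (Finset.countable_toSet _)).insert _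
    obtain ⟨i, hi⟩ := hS.exists_eq_range (Set.insert_nonempty _ _)
    obtain ⟨j, hj⟩ := hE i fun x => φ (b x)
    obtain ⟨α, hα⟩ := exists_dominating fun k => (e (i k)).2
    have hM : ∀ x ∈ S, ψ (j, α) (b x) = φ (b x) := by
      intro x hx
      rw [hi] at hx
      obtain ⟨k, rfl⟩ := hx
      rw [hψ]
      have : ¬ ∀ᶠ n in atTop, α n < (e (i k)).2 n := by
        intro h'
        obtain ⟨n, h1, h2⟩ := ((hα k).and h').exists
        omega
      simp only [M, if_neg this]
      exact hj k
    refine ⟨(j, α), fun g hg => ?_⟩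
    rw [← b.linearCombination_repr g, Finsupp.linearCombination_apply, Finsupp.sum, map_sum,
      map_sum]
    refine Finset.sum_congr rfl fun x hx => ?_
    rw [ZMod.map_smul, ZMod.map_smul, hM x]
    exact Or.inr (Set.mem_biUnion hg hx)

end Pool.Agent.Lib.MP_8fa6fd_gt
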