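import Mathlib
import Pool.Agent.Lib.MP_8fa6fd_gt.Defs

-- part Pool.Agent.Lib.MP_8fa6fd_gt.Finite
section

/-!
A Bogolyubov type lemma in a finite Boolean group, proved with projections.
-/

namespace Pool.Agent.Lib.MP_8fa6fd_gt

open Finset

variable {F : Type*} [AddCommGroup F] [Fintype F]

noncomputable def nrm (h : F → ℝ) : ℝ := ∑ z, h z ^ 2

noncomputable def cor (h : F → ℝ) (y : F) : ℝ := ∑ z, h z * h (z + y)

noncomputable def qrm (h : F → ℝ) : ℝ := ∑ y, cor h y ^ 2

noncomputable def pp (w : F) (h : F → ℝ) : F → ℝ := fun z => (h z + h (z + w)) / 2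

noncomputable def pm (w : F) (h : F → ℝ) : F → ℝ := fun z => (h z - h (z + w)) / 2

lemma sum_shift (g : F → ℝ) (w : F) : ∑ z, g (z + w) = ∑ z, g z :=
  Fintype.sum_equiv (Equiv.addRight w) _ _ (fun _ => rfl)

lemma sum_even_odd (a b : F → ℝ) (w : F) (ha : ∀ z, a (z + w) = a z)
    (hb : ∀ z, b (z + w) = - b z) : ∑ z, a z * b z = 0 := by
  have h1 := sum_shift (fun z => a z * b z) w
  simp only [ha, hb, mul_neg, Finset.sum_neg_distrib] at h1
  linarith

lemma nrm_nonneg (h : F → ℝ) : 0 ≤ nrm h := Finset.sum_nonneg fun _ _ => sq_nonneg _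

lemma qrm_le (h : F → ℝ) : qrm h ≤ Fintype.card F * nrm h ^ 2 := by
  have : ∀ y, cor h y ^ 2 ≤ nrm h ^ 2 := by
    intro y
    have h1 := Finset.sum_mul_sq_le_sq_mul_sq Finset.univ h (fun z => h (z + y))
    have h2 := sum_shift (fun z => h z ^ 2) y
    simp only [h2] at h1
    unfold cor nrm
    rw [sq (∑ z, h z ^ 2)]
    exact h1
  calc qrm h ≤ ∑ _y : F, nrm h ^ 2 := Finset.sum_le_sum fun y _ => this y
    _ = _ := by simp

omit [Fintype F] in
lemma pp_even (hB : ∀ x : F, x + x = 0) (w : F) (h : F → ℝ) (z : F) :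
    pp w h (z + w) = pp w h z := by
  unfold pp
  rw [add_assoc, hB, add_zero, add_comm]

omit [Fintype F] in
lemma pm_odd (hB : ∀ x : F, x + x = 0) (w : F) (h : F → ℝ) (z : F) :
    pm w h (z + w) = - pm w h z := by
  unfold pm
  rw [add_assoc, hB, add_zero]
  ring

omit [Fintype F] in
lemma pp_add_pm (w : F) (h : F → ℝ) (z : F) : h z = pp w h z + pm w h z := by
  unfold pp pm
  ring

lemma nrm_split (hB : ∀ x : F, x + x = 0) (w : F) (h : F → ℝ) :
    nrm h = nrm (pp w h) + nrm (pm w h) := by
  have h0 := sum_even_odd (pp w h) (pm w h) w (pp_even hB w h) (pm_odd hB w h)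
  unfold nrm
  have : ∀ z, h z ^ 2 = pp w h z ^ 2 + pm w h z ^ 2 + 2 * (pp w h z * pm w h z) := by
    intro z
    rw [pp_add_pm w h z]
    ring
  simp only [this, Finset.sum_add_distrib, ← Finset.mul_sum, h0]
  ring

lemma cor_split (hB : ∀ x : F, x + x = 0) (w : F) (h : F → ℝ) (y : F) :
    cor h y = cor (pp w h) y + cor (pm w h) y := by
  have h1 := sum_even_odd (pp w h) (fun z => pm w h (z + y)) w (pp_even hB w h)
    (fun z => by rw [add_right_comm]; exact pm_odd hB w h _)
  have h2 := sum_even_odd (fun z => pp w h (z + y)) (pm w h) w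
    (fun z => by rw [add_right_comm]; exact pp_even hB w h _) (pm_odd hB w h)
  unfold cor
  have : ∀ z, h z * h (z + y) = pp w h z * pp w h (z + y) + pm w h z * pm w h (z + y)
      + pp w h z * pm w h (z + y) + pp w h (z + y) * pm w h z := by
    intro z
    rw [pp_add_pm w h z, pp_add_pm w h (z + y)]
    ring
  simp only [this, Finset.sum_add_distrib, h1, h2]
  ring

lemma qrm_split (hB : ∀ x : F, x + x = 0) (w : F) (h : F → ℝ) :
    qrm h = qrm (pp w h) + qrm (pm w h) := by
  have h0 := sum_even_odd (cor (pp w h)) (cor (pm w h)) w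
    (fun y => by
      unfold cor
      refine Finset.sum_congr rfl fun z _ => ?_
      rw [← add_assoc, pp_even hB])
    (fun y => by
      unfold cor
      rw [← Finset.sum_neg_distrib]
      refine Finset.sum_congr rfl fun z _ => ?_
      rw [← add_assoc, pm_odd hB]
      ring)
  unfold qrm
  have : ∀ y, cor h y ^ 2 = cor (pp w h) y ^ 2 + cor (pm w h) y ^ 2
      + 2 * (cor (pp w h) y * cor (pm w h) y) := by
    intro y
    rw [cor_split hB w h y]
    ring
  simp only [this, Finset.sum_add_distrib, ← Finset.mul_sum, h0]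
  ring

lemma nrm_pm_pp_le (hB : ∀ x : F, x + x = 0) (v w : F) (h : F → ℝ) :
    nrm (pm w (pp v h)) ≤ nrm (pm w h) := by
  have h1 : pm w (pp v h) = pp v (pm w h) := by
    funext z
    unfold pm pp
    rw [add_right_comm z w v]
    ring
  rw [h1, nrm_split hB v (pm w h)]
  linarith [nrm_nonneg (pm v (pm w h))]

theorem list_sum_ne (hB : ∀ x : F, x + x = 0) (δ : ℝ) (l : List F) :
    ∀ (h : F → ℝ) (x : F), δ * Fintype.card F * nrm h ≤ qrm h → 0 < nrm h →
      (∀ w ∈ l, nrm (pm w h) < δ) → (∀ z, h (z + x) = - h z) → l.sum ≠ x := by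
  induction l with
  | nil =>
    intro h x _ hpos _ hodd hx
    have hx0 : x = 0 := by simpa using hx.symm
    have : ∀ z, h z = 0 := by
      intro z
      have := hodd z
      rw [hx0, add_zero] at this
      linarith
    simp [nrm, this] at hpos
  | cons w l ih =>
    intro h x hq hpos hw hodd hx
    have hc : (0 : ℝ) < Fintype.card F := by exact_mod_cast Fintype.card_pos
    have hw0 := hw w (by simp)
    have hn := nrm_split hB w h
    have hqs := qrm_split hB w h
    have hqm := qrm_le (pm w h)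
    have hqh := qrm_le h
    have hm0 := nrm_nonneg (pm w h)
    have hδ : δ ≤ nrm h := by
      have h1 : δ * (Fintype.card F * nrm h) ≤ nrm h * (Fintype.card F * nrm h) := by
        nlinarith
      exact le_of_mul_le_mul_right h1 (mul_pos hc hpos)
    refine ih (pp w h) (x + w) ?_ ?_ ?_ ?_ ?_
    · have h2 : Fintype.card F * nrm (pm w h) ^ 2 ≤ δ * Fintype.card F * nrm (pm w h) := by
        have : 0 ≤ (Fintype.card F * nrm (pm w h)) * (δ - nrm (pm w h)) :=
          mul_nonneg (mul_nonneg hc.le hm0) (by linarith)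
        nlinarith
      have h3 : δ * Fintype.card F * nrm h = δ * Fintype.card F * nrm (pp w h)
          + δ * Fintype.card F * nrm (pm w h) := by rw [hn]; ring
      linarith
    · linarith
    · intro v hv
      exact (nrm_pm_pp_le hB w v h).trans_lt (hw v (by simp [hv]))
    · intro z
      rw [← add_assoc, pp_even hB]
      unfold pp
      rw [add_right_comm z x w, hodd, hodd]
      ring
    · rw [List.sum_cons] at hx
      rw [← hx, add_comm w, add_assoc, hB, add_zero]

end Pool.Agent.Lib.MP_8fa6fd_gt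
end

-- part Pool.Agent.Lib.MP_8fa6fd_gt.Precompact
section

/-!
A pseudocompact Boolean group is precompact, and its continuous characters separate points.
-/

namespace Pool.Agent.Lib.MP_8fa6fd_gt

open Topology Filter

variable {G : Type*} [AddCommGroup G] [TopologicalSpace G] [IsTopologicalAddGroup G]

theorem exists_finset_cover (hB : ∀ x : G, x + x = 0) (hP : Pseudocompact G) {U : Set G}
    (hU : U ∈ 𝓝 (0 : G)) : ∃ A : Finset G, ∀ g, ∃ a ∈ A, g + a ∈ U := by
  by_contra hcon
  push Not at hcon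
  obtain ⟨x, -, hx⟩ := exists_seq_of_forall_finset_exists (fun _ : G => True)
    (fun a g => g + a ∉ U) (fun s _ => by
      obtain ⟨g, hg⟩ := hcon s
      exact ⟨g, trivial, hg⟩)
  obtain ⟨V, hV, hV4⟩ := exists_nhds_zero_quarter hU
  have hcr : CompletelyRegularSpace G :=
    CompletelyRegularSpace.of_exists_uniformSpace ⟨IsTopologicalAddGroup.rightUniformSpace G, rfl⟩
  have h0 : (0 : G) ∈ interior V := mem_interior_iff_mem_nhds.2 hV
  obtain ⟨f, hfc, hf0, hf1⟩ := hcr.completely_regular (0 : G) (interior V)ᶜ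
    isOpen_interior.isClosed_compl (by simpa using h0)
  let b : ℕ → G → ℝ := fun n g => (n : ℝ) * (1 - (f (g + x n) : ℝ))
  have hbc : ∀ n, Continuous (b n) := fun n => by
    have : Continuous fun g : G => f (g + x n) := hfc.comp (by fun_prop)
    exact continuous_const.mul (continuous_const.sub (continuous_subtype_val.comp this))
  have hsupp : ∀ n g, b n g ≠ 0 → g + x n ∈ V := by
    intro n g hg
    by_contra hV'
    have : f (g + x n) = 1 := hf1 (fun h => hV' (interior_subset h))
    simp [b, this] at hg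
  have hkey : ∀ g g1 g2 : G, ∀ n m, g1 + g ∈ V → g2 + g ∈ V → g1 + x n ∈ V → g2 + x m ∈ V →
      n = m := by
    intro g g1 g2 n m h1 h2 h3 h4
    have h5 := hV4 h1 h2 h3 h4
    have h6 : g1 + g + (g2 + g) + (g1 + x n) + (g2 + x m) = x n + x m := by
      have e1 := hB g
      have e2 := hB g1
      have e3 := hB g2
      calc g1 + g + (g2 + g) + (g1 + x n) + (g2 + x m)
          = (g + g) + (g1 + g1) + (g2 + g2) + (x n + x m) := by abel
        _ = x n + x m := by rw [e1, e2, e3]; simp
    rw [h6] at h5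
    rcases lt_trichotomy n m with h | h | h
    · exact absurd (by rwa [add_comm] at h5) (hx n m h)
    · exact h
    · exact absurd h5 (hx m n h)
  have hlf : LocallyFinite fun n => Function.support (b n) := by
    intro g
    refine ⟨{g1 | g1 + g ∈ V}, ?_, ?_⟩
    · have hc : Continuous fun g1 : G => g1 + g := by fun_prop
      exact hc.continuousAt.preimage_mem_nhds (by simpa [hB] using hV)
    · refine Set.Subsingleton.finite ?_
      rintro n ⟨g1, hg1, hg1'⟩ m ⟨g2, hg2, hg2'⟩
      exact hkey g g1 g2 n m hg1' hg2' (hsupp n g1 hg1) (hsupp m g2 hg2)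
  obtain ⟨C, hC⟩ := hP _ (continuous_finsum hbc hlf)
  obtain ⟨n, hn⟩ := exists_nat_gt C
  have hV0 : (0 : G) ∈ V := mem_of_mem_nhds hV
  have hval : ∑ᶠ m, b m (x n) = n := by
    rw [finsum_eq_single _ n]
    · simp [b, hB, hf0]
    · intro m hm
      by_contra hne
      exact hm (hkey (x n) (x n) (x n) m n (by simpa [hB] using hV0) (by simpa [hB] using hV0)
        (hsupp m _ hne) (by simpa [hB] using hV0))
  have := hC (x n)
  rw [hval, Nat.abs_cast] at this
  linarith

omit [IsTopologicalAddGroup G] in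
lemma exists_nhds_list_sum [ContinuousAdd G] (m : ℕ) : ∀ {U : Set G}, U ∈ 𝓝 (0 : G) →
    ∃ W ∈ 𝓝 (0 : G), ∀ l : List G, l.length ≤ m → (∀ w ∈ l, w ∈ W) → l.sum ∈ U := by
  induction m with
  | zero =>
    intro U hU
    refine ⟨U, hU, fun l hl _ => ?_⟩
    have : l = [] := List.length_eq_zero_iff.1 (by omega)
    simpa [this] using mem_of_mem_nhds hU
  | succ m ih =>
    intro U hU
    obtain ⟨U', hU', h2⟩ := exists_nhds_zero_half hU
    obtain ⟨W', hW', h3⟩ := ih hU'
    refine ⟨W' ∩ U', inter_mem hW' hU', fun l hl hw => ?_⟩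
    cases l with
    | nil => simpa using mem_of_mem_nhds hU
    | cons a l =>
      rw [List.sum_cons]
      refine h2 _ (hw a (by simp)).2 _ (h3 l (by simpa using hl) fun w hw' => ?_)
      exact (hw w (by simp [hw'])).1

omit [TopologicalSpace G] [IsTopologicalAddGroup G] in
lemma finite_closure (hB : ∀ x : G, x + x = 0) (s : Finset G) :
    Finite (AddSubgroup.closure (s : Set G)) := by
  letI : Module (ZMod 2) G := AddCommGroup.zmodModule (n := 2) (by simpa [two_nsmul] using hB)
  have h1 : Finite (Submodule.span (ZMod 2) (s : Set G)) := by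
    have : Module.Finite (ZMod 2) (Submodule.span (ZMod 2) (s : Set G)) :=
      Module.Finite.span_finset _ s
    exact Module.finite_of_finite (ZMod 2)
  have h2 : (AddSubgroup.closure (s : Set G) : Set G) ⊆ Submodule.span (ZMod 2) (s : Set G) := by
    have : AddSubgroup.closure (s : Set G) ≤ (Submodule.span (ZMod 2) (s : Set G)).toAddSubgroup := by
      rw [AddSubgroup.closure_le]
      exact Submodule.subset_span
    exact this
  exact Set.Finite.subset (s := (Submodule.span (ZMod 2) (s : Set G) : Set G)) h1 h2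

/-- The almost invariant bump function. -/
lemma exists_bump (hB : ∀ x : G, x + x = 0) {U : Set G} (hU : U ∈ 𝓝 (0 : G)) (V : Set G) (m : ℕ) :
    ∃ W ∈ 𝓝 (0 : G), ∃ b : G → ℝ, (∀ z, 0 ≤ b z) ∧ (∀ z, b z ≤ m) ∧ (∀ z ∈ V, b z = m) ∧
      (∀ z, b z ≠ 0 → ∃ u ∈ U, z + u ∈ V) ∧ ∀ z, ∀ w ∈ W, |b z - b (z + w)| ≤ 1 := by
  classical
  obtain ⟨W, hW, hWm⟩ := exists_nhds_list_sum m hU
  let S : G → Set ℕ := fun z =>
    {j | j = m ∨ ∃ l : List G, l.length = j ∧ (∀ w ∈ l, w ∈ W) ∧ z + l.sum ∈ V}
  have hSne : ∀ z, (S z).Nonempty := fun z => ⟨m, Or.inl rfl⟩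
  let d : G → ℕ := fun z => sInf (S z)
  have hdm : ∀ z, d z ≤ m := fun z => Nat.sInf_le (Or.inl rfl)
  have hdmem : ∀ z, d z ∈ S z := fun z => Nat.sInf_mem (hSne z)
  have hstep : ∀ z, ∀ w ∈ W, d (z + w) ≤ d z + 1 := by
    intro z w hw
    rcases hdmem z with h | ⟨l, hl, hlw, hz⟩
    · have := hdm (z + w)
      omega
    · refine Nat.sInf_le (Or.inr ⟨w :: l, by simp [hl], ?_, ?_⟩)
      · intro v hv
        rcases List.mem_cons.1 hv with rfl | hv
        · exact hw
        · exact hlw v hv
      · rw [List.sum_cons, add_assoc, ← add_assoc w, hB, zero_add]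
        exact hz
  refine ⟨W, hW, fun z => (m : ℝ) - d z, fun z => ?_, fun z => ?_, fun z hz => ?_,
    fun z hz => ?_, fun z w hw => ?_⟩
  · have : (d z : ℝ) ≤ m := by exact_mod_cast hdm z
    linarith
  · have : (0 : ℝ) ≤ d z := by positivity
    linarith
  · have : d z = 0 := Nat.eq_zero_of_le_zero
      (Nat.sInf_le (Or.inr ⟨[], rfl, by simp, by simpa using hz⟩))
    simp [this]
  · rcases hdmem z with h | ⟨l, hl, hlw, hz'⟩
    · simp [h] at hz
    · exact ⟨l.sum, hWm l (hl ▸ hdm z) hlw, hz'⟩
  · have h1 : (d (z + w) : ℝ) ≤ d z + 1 := by exact_mod_cast hstep z w hw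
    have h2 : (d z : ℝ) ≤ d (z + w) + 1 := by
      have := hstep (z + w) w hw
      rw [add_assoc, hB, add_zero] at this
      exact_mod_cast this
    rw [abs_le]
    constructor <;> linarith

theorem exists_nhds_notMem_closure (hB : ∀ x : G, x + x = 0) [T2Space G] (hP : Pseudocompact G)
    {x : G} (hx : x ≠ 0) : ∃ W ∈ 𝓝 (0 : G), x ∉ AddSubgroup.closure W := by
  classical
  have hx' : ({x}ᶜ : Set G) ∈ 𝓝 (0 : G) := isOpen_compl_singleton.mem_nhds (by simpa using hx.symm)
  obtain ⟨U, hU, hU7⟩ := exists_nhds_list_sum 7 hx'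
  obtain ⟨A, hA⟩ := exists_finset_cover hB hP hU
  have hU0 : (0 : G) ∈ U := mem_of_mem_nhds hU
  let V : Set G := {z | ∃ u ∈ U, ∃ v ∈ U, z = u + v}
  let m : ℕ := A.card ^ 3 + 1
  obtain ⟨W, hW, b, hb0, hbm, hbV, hbU, hbW⟩ := exists_bump hB hU V m
  refine ⟨W, hW, fun hxW => ?_⟩
  have hneg : ∀ y : G, -y = y := fun y => neg_eq_of_add_eq_zero_left (hB y)
  obtain ⟨l, hlW, hlx⟩ : ∃ l : List G, (∀ y ∈ l, y ∈ W) ∧ l.sum = x := by
    have : x ∈ AddSubmonoid.closure W := by
      have h1 : x ∈ (AddSubgroup.closure W).toAddSubmonoid := hxW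
      rw [AddSubgroup.closure_toAddSubmonoid] at h1
      have h2 : W ∪ -W = W := by
        ext y
        simp [Set.mem_neg, hneg]
      rwa [h2] at h1
    exact AddSubmonoid.exists_list_of_mem_closure this
  let F := AddSubgroup.closure ((l.toFinset ∪ A : Finset G) : Set G)
  haveI : Finite F := finite_closure hB _
  letI : Fintype F := Fintype.ofFinite F
  have hBF : ∀ y : F, y + y = 0 := fun y => Subtype.ext (hB y)
  have hlF : ∀ y ∈ l, y ∈ F := fun y hy => AddSubgroup.subset_closure (by simp [hy])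
  have hAF : ∀ y ∈ A, y ∈ F := fun y hy => AddSubgroup.subset_closure (by simp [hy])
  have hxF : x ∈ F := hlx ▸ list_sum_mem hlF
  let l' : List F := l.attach.map fun y => ⟨y.1, hlF y.1 y.2⟩
  have hl' : l'.sum = ⟨x, hxF⟩ := by
    apply Subtype.ext
    rw [AddSubmonoidClass.coe_list_sum]
    simp [l', hlx, List.map_map, Function.comp_def]
  let h : F → ℝ := fun z => b z - b (z + x)
  let T : Finset F := Finset.univ.filter fun z => (z : G) ∈ U
  have hcard : Fintype.card F ≤ A.card * T.card := by
    choose a haA haU using hA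
    let φ : F → G × F := fun z => (a z, z + ⟨a z, hAF _ (haA z)⟩)
    have hφ : Set.InjOn φ (Finset.univ : Finset F) := by
      intro z1 _ z2 _ h12
      have e1 : a z1 = a z2 := congrArg Prod.fst h12
      have e2 : (z1 : G) + a z1 = z2 + a z2 := congrArg (fun p : G × F => (p.2 : G)) h12
      rw [e1] at e2
      exact Subtype.ext (add_right_cancel e2)
    have := Finset.card_le_card_of_injOn (t := A ×ˢ T) φ (fun z _ => by
      simp only [φ, Finset.coe_product, Set.mem_prod, Finset.mem_coe, T, Finset.mem_filter,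
        Finset.mem_univ, true_and]
      exact ⟨haA z, haU z⟩) hφ
    simpa using this
  have hcross : ∀ z y : G, y ∈ U → b z * b (z + y + x) = 0 := by
    intro z y hy
    by_contra hne
    obtain ⟨u1, hu1, u2, hu2, u3, hu3, e1⟩ := hbU z (left_ne_zero_of_mul hne)
    obtain ⟨u4, hu4, u5, hu5, u6, hu6, e2⟩ := hbU _ (right_ne_zero_of_mul hne)
    have h7 := hU7 [u1, u2, u3, u4, u5, u6, y] (by simp) (by simp [*])
    apply h7
    have e3 : z = u1 + u2 + u3 := by
      have : z = z + u1 + u1 := by rw [add_assoc, hB, add_zero]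
      rw [this, e1]; abel
    have e4 : x = z + y + u4 + (u5 + u6) := by
      rw [← e2]
      calc x = (z + z) + (y + y) + (u4 + u4) + x := by simp [hB]
        _ = _ := by abel
    simp only [List.sum_cons, List.sum_nil, Set.mem_singleton_iff]
    rw [e4, e3]
    abel
  have hcor : ∀ y ∈ T, (m : ℝ) ^ 2 * T.card ≤ cor h y := by
    intro y hy
    have hyU : (y : G) ∈ U := (Finset.mem_filter.1 hy).2
    have e1 : ∀ z : F, b z * b (z + y) ≤ h z * h (z + y) := by
      intro z
      have c1 := hcross z y hyU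
      have c2 := hcross (z + x) y hyU
      rw [show (z : G) + x + y + x = z + y + (x + x) by abel, hB, add_zero] at c2
      have c3 := mul_nonneg (hb0 (z + x)) (hb0 (z + y + x))
      simp only [h, AddSubgroup.coe_add]
      nlinarith
    calc (m : ℝ) ^ 2 * T.card = ∑ z ∈ T, b z * b (z + y) := by
          rw [Finset.sum_congr rfl (g := fun _ => (m : ℝ) ^ 2)]
          · simp [mul_comm]
          · intro z hz
            have hzU : (z : G) ∈ U := (Finset.mem_filter.1 hz).2
            rw [hbV z ⟨z, hzU, 0, hU0, by simp⟩, hbV _ ⟨z, hzU, y, hyU, rfl⟩, sq]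
      _ ≤ ∑ z : F, b z * b (z + y) :=
          Finset.sum_le_sum_of_subset_of_nonneg (Finset.subset_univ _)
            fun z _ _ => mul_nonneg (hb0 _) (hb0 _)
      _ ≤ cor h y := Finset.sum_le_sum fun z _ => e1 z
  have hq : (m : ℝ) ^ 4 * (T.card : ℝ) ^ 3 ≤ qrm h := by
    calc (m : ℝ) ^ 4 * (T.card : ℝ) ^ 3 = ∑ _y ∈ T, ((m : ℝ) ^ 2 * T.card) ^ 2 := by
          simp; ring
      _ ≤ ∑ y ∈ T, cor h y ^ 2 := Finset.sum_le_sum fun y hy =>
          pow_le_pow_left₀ (by positivity) (hcor y hy) 2
      _ ≤ qrm h := Finset.sum_le_sum_of_subset_of_nonneg (Finset.subset_univ _)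
          fun z _ _ => sq_nonneg _
  have hn : nrm h ≤ (m : ℝ) ^ 2 * Fintype.card F := by
    calc nrm h ≤ ∑ _z : F, (m : ℝ) ^ 2 := Finset.sum_le_sum fun z _ => by
          apply sq_le_sq'
          · simp only [h]; linarith [hb0 z, hbm (z + x)]
          · simp only [h]; linarith [hbm z, hb0 (z + x)]
      _ = _ := by simp [mul_comm]
  have hcF : (0 : ℝ) < Fintype.card F := by exact_mod_cast Fintype.card_pos
  have hcardR : (Fintype.card F : ℝ) ≤ A.card * T.card := by exact_mod_cast hcard
  have hApos : (0 : ℝ) < A.card := by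
    rcases (Nat.cast_nonneg (α := ℝ) A.card).eq_or_lt with h0 | h0
    · rw [← h0] at hcardR; linarith
    · exact h0
  have hTpos : (0 : ℝ) < T.card := by
    rcases (Nat.cast_nonneg (α := ℝ) T.card).eq_or_lt with h0 | h0
    · rw [← h0] at hcardR; linarith
    · exact h0
  have hm : (m : ℝ) = (A.card : ℝ) ^ 3 + 1 := by simp [m]
  have hm1 : (1 : ℝ) ≤ m := by rw [hm]; have := pow_pos hApos 3; linarith
  refine list_sum_ne hBF ((m : ℝ) ^ 2 * Fintype.card F / (A.card : ℝ) ^ 3) l' h ⟨x, hxF⟩
    ?_ ?_ ?_ ?_ hl'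
  · refine le_trans ?_ hq
    have h3 : (Fintype.card F : ℝ) ^ 3 ≤ (A.card * T.card : ℝ) ^ 3 :=
      pow_le_pow_left₀ hcF.le hcardR 3
    calc (m : ℝ) ^ 2 * Fintype.card F / (A.card : ℝ) ^ 3 * Fintype.card F * nrm h
        ≤ (m : ℝ) ^ 2 * Fintype.card F / (A.card : ℝ) ^ 3 * Fintype.card F
          * ((m : ℝ) ^ 2 * Fintype.card F) := by gcongr
      _ = (m : ℝ) ^ 4 * ((Fintype.card F : ℝ) ^ 3 / (A.card : ℝ) ^ 3) := by ring
      _ ≤ (m : ℝ) ^ 4 * ((A.card * T.card : ℝ) ^ 3 / (A.card : ℝ) ^ 3) := by gcongr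
      _ = _ := by field_simp
  · have h1 := qrm_le h
    have h2 : 0 < (m : ℝ) ^ 4 * (T.card : ℝ) ^ 3 := by positivity
    rcases (nrm_nonneg h).eq_or_lt with h0 | h0
    · rw [← h0] at h1; nlinarith
    · exact h0
  · intro w hw
    have hwW : (w : G) ∈ W := by
      simp only [l', List.mem_map, List.mem_attach, true_and] at hw
      obtain ⟨y, rfl⟩ := hw
      exact hlW _ y.2
    have h1 : nrm (pm w h) ≤ Fintype.card F := by
      calc nrm (pm w h) ≤ ∑ _z : F, (1 : ℝ) := Finset.sum_le_sum fun z _ => by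
            have c1 := abs_le.1 (hbW z w hwW)
            have c2 := abs_le.1 (hbW (z + x) w hwW)
            rw [add_right_comm] at c2
            rw [← one_pow 2]
            apply sq_le_sq'
            · simp only [pm, h, AddSubgroup.coe_add]; linarith [c1.1, c2.2]
            · simp only [pm, h, AddSubgroup.coe_add]; linarith [c1.2, c2.1]
        _ = _ := by simp
    refine h1.trans_lt ?_
    rw [lt_div_iff₀ (pow_pos hApos 3)]
    have : (A.card : ℝ) ^ 3 < (m : ℝ) ^ 2 := by nlinarith
    nlinarith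
  · intro z
    simp only [h, AddSubgroup.coe_add]
    rw [add_assoc, hB, add_zero]
    ring

theorem exists_continuous_char (hB : ∀ x : G, x + x = 0) [T2Space G] (hP : Pseudocompact G)
    {x : G} (hx : x ≠ 0) : ∃ φ : G →+ ZMod 2, Continuous φ ∧ φ x ≠ 0 := by
  obtain ⟨W, hW, hxW⟩ := exists_nhds_notMem_closure hB hP hx
  letI : Module (ZMod 2) G := AddCommGroup.zmodModule (n := 2) (by simpa [two_nsmul] using hB)
  let p : Submodule (ZMod 2) G := AddSubgroup.toZModSubmodule 2 (AddSubgroup.closure W)
  obtain ⟨f, hf, hfp⟩ := p.exists_dual_map_eq_bot_of_notMem (x := x) hxW inferInstance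
  refine ⟨f.toAddMonoidHom, ?_, hf⟩
  refine continuous_of_continuousAt_zero _ ?_
  have : (f.toAddMonoidHom : G → ZMod 2) =ᶠ[𝓝 0] fun _ => 0 := by
    filter_upwards [hW] with w hw
    have h1 : f w ∈ p.map f := Submodule.mem_map_of_mem (AddSubgroup.subset_closure hw)
    rw [hfp] at h1
    simpa using h1
  exact continuousAt_const.congr this.symm

end Pool.Agent.Lib.MP_8fa6fd_gt
end

-- part Pool.Agent.Lib.MP_8fa6fd_gt.Data
section

/-!
From a pseudocompact Hausdorff group topology on a Boolean group to a separating family of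
characters that realises every pattern on every countable set of indices.
-/

namespace Pool.Agent.Lib.MP_8fa6fd_gt

open Topology Filter

universe u

theorem exists_family {G : Type u} [AddCommGroup G] [TopologicalSpace G]
    [IsTopologicalAddGroup G] [T2Space G] (hB : ∀ x : G, x + x = 0) (hP : Pseudocompact G) :
    ∃ (σ : Type u) (χ : σ → (G →+ ZMod 2)), (∀ g, (∀ s, χ s g = 0) → g = 0) ∧
      ∀ (a : ℕ → σ) (p : σ → ZMod 2), ∃ g, ∀ n, χ (a n) g = p (a n) := by
  classical
  letI : Module (ZMod 2) G := AddCommGroup.zmodModule (n := 2) (by simpa [two_nsmul] using hB)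
  let X : Set (G → ZMod 2) := {f | Continuous f ∧ ∃ φ : G →+ ZMod 2, (φ : G → ZMod 2) = f}
  obtain ⟨B, hBX, hspan, hli⟩ := exists_linearIndependent (ZMod 2) X
  have hch : ∀ s : B, ∃ φ : G →+ ZMod 2, (φ : G → ZMod 2) = s.1 := fun s => (hBX s.2).2
  choose χ hχ using hch
  have hcont : ∀ s : B, Continuous (χ s) := fun s => by rw [hχ]; exact (hBX s.2).1
  refine ⟨B, χ, fun g hg => ?_, fun a p => ?_⟩
  · by_contra hne
    obtain ⟨φ, hφc, hφ⟩ := exists_continuous_char hB hP hne
    have h1 : (φ : G → ZMod 2) ∈ Submodule.span (ZMod 2) B := by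
      rw [hspan]
      exact Submodule.subset_span ⟨hφc, φ, rfl⟩
    have h2 : Submodule.span (ZMod 2) B ≤ LinearMap.ker (LinearMap.proj (R := ZMod 2)
        (φ := fun _ : G => ZMod 2) g) := by
      rw [Submodule.span_le]
      intro f hf
      have := hg ⟨f, hf⟩
      rw [hχ] at this
      simpa using this
    exact hφ (by simpa using h2 h1)
  · have hfin : ∀ N : ℕ, ∃ g, ∀ n < N, χ (a n) g = p (a n) := by
      intro N
      let T : Finset B := (Finset.range N).image a
      have hliT : LinearIndependent (ZMod 2) (fun t : T => (χ t.1 : G → ZMod 2)) := by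
        have := hli.comp (fun t : T => t.1) Subtype.val_injective
        have e : (fun t : T => (χ t.1 : G → ZMod 2)) = Subtype.val ∘ fun t : T => t.1 := by
          funext t
          simp [hχ]
        rw [e]
        exact this
      have htop := span_flip_eq_top_iff_linearIndependent.2 hliT
      let L : G →ₗ[ZMod 2] (T → ZMod 2) := LinearMap.pi fun t => (χ t.1).toZModLinearMap 2
      have hr : Set.range (flip fun t : T => (χ t.1 : G → ZMod 2)) = LinearMap.range L := by
        ext v
        simp only [Set.mem_range, SetLike.mem_coe, LinearMap.mem_range]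
        rfl
      rw [hr, Submodule.span_eq] at htop
      obtain ⟨g, hg⟩ := LinearMap.range_eq_top.1 htop (fun t => p t.1)
      refine ⟨g, fun n hn => ?_⟩
      exact congrFun hg ⟨a n, Finset.mem_image_of_mem a (Finset.mem_range.2 hn)⟩
    by_contra hcon
    push Not at hcon
    let k : G → ℕ := fun g => Nat.find (hcon g)
    have hk : IsLocallyConstant k := by
      rw [IsLocallyConstant.iff_eventually_eq]
      intro g
      have : ∀ᶠ y in 𝓝 g, ∀ n ∈ Finset.range (k g + 1), χ (a n) y = χ (a n) g := by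
        rw [Filter.eventually_all_finset]
        intro n _
        exact (hcont (a n)).continuousAt.eventually
          (p := fun z => z = χ (a n) g) (by simp [nhds_discrete])
      filter_upwards [this] with y hy
      rw [Nat.find_eq_iff]
      refine ⟨?_, fun n hn => ?_⟩
      · rw [hy _ (by simp)]
        exact Nat.find_spec (hcon g)
      · rw [hy _ (by simp; omega)]
        exact Nat.find_min (hcon g) hn
    obtain ⟨C, hC⟩ := hP (fun g => (k g : ℝ)) (hk.comp (fun n : ℕ => (n : ℝ))).continuous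
    obtain ⟨N, hN⟩ := exists_nat_gt C
    obtain ⟨g, hg⟩ := hfin N
    have h1 : N ≤ k g := by
      by_contra hlt
      exact Nat.find_spec (hcon g) (hg _ (not_le.1 hlt))
    have h2 := hC g
    rw [Nat.abs_cast] at h2
    have : (N : ℝ) ≤ k g := by exact_mod_cast h1
    linarith

end Pool.Agent.Lib.MP_8fa6fd_gt
end

-- part Pool.Agent.Lib.MP_8fa6fd_gt.Top
section

/-!
Properties of the weak topology defined by a family of characters that is countably full on
both sides.
-/

namespace Pool.Agent.Lib.MP_8fa6fd_gt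

open Topology Filter

section Lin

variable {V : Type*} [AddCommGroup V]

lemma exists_char_sep [Module (ZMod 2) V] {x : ℕ → V} (hx : LinearIndependent (ZMod 2) x)
    (p : V) : ∃ φ : V →+ ZMod 2, φ p = 0 ∧ {n | φ (x n) = 0}.Finite := by
  classical
  have hli : LinearIndepOn (ZMod 2) id (Set.range x) := hx.linearIndepOn_id
  let B := Module.Basis.extend hli
  let f : V →ₗ[ZMod 2] ZMod 2 :=
    B.constr (ZMod 2) fun v => if v ∈ (B.repr p).support then 0 else 1
  have hf : ∀ v, f (B v) = if v ∈ (B.repr p).support then 0 else 1 := fun v => by simp [f]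
  have hmem : ∀ n, x n ∈ hli.extend (Set.subset_univ _) := fun n =>
    hli.subset_extend _ (Set.mem_range_self n)
  refine ⟨f.toAddMonoidHom, ?_, ?_⟩
  · show f p = 0
    rw [← B.linearCombination_repr p, Finsupp.linearCombination_apply, Finsupp.sum, map_sum]
    refine Finset.sum_eq_zero fun v hv => ?_
    rw [map_smul, hf, if_pos hv, smul_zero]
  · let y : ℕ → hli.extend (Set.subset_univ _) := fun n => ⟨x n, hmem n⟩
    have hy : Function.Injective y := fun n m h => hx.injective (congrArg Subtype.val h)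
    refine ((B.repr p).support.finite_toSet.preimage hy.injOn).subset fun n hn => ?_
    have h1 : B (y n) = x n := Module.Basis.extend_apply_self hli _
    have h2 : f (x n) = 0 := hn
    rw [← h1, hf] at h2
    by_contra hne
    have hne' : ¬ y n ∈ (B.repr p).support := hne
    rw [if_neg hne'] at h2
    exact absurd h2 (by decide)

variable [TopologicalSpace V]

lemma exists_nhds_finite [Module (ZMod 2) V]
    (hfull : ∀ T : Set V, T.Countable → ∀ φ : V →+ ZMod 2,
      ∃ U : Set V, IsOpen U ∧ ∀ t ∈ T, (t ∈ U ↔ φ t = 0))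
    {x : ℕ → V} (hx : LinearIndependent (ZMod 2) x) (p : V) :
    ∃ U ∈ 𝓝 p, {n | x n ∈ U}.Finite := by
  obtain ⟨φ, hφ, hfin⟩ := exists_char_sep hx p
  obtain ⟨U, hU, hT⟩ := hfull (insert p (Set.range x)) ((Set.countable_range x).insert p) φ
  refine ⟨U, hU.mem_nhds ((hT p (Set.mem_insert _ _)).2 hφ), hfin.subset fun n hn => ?_⟩
  exact (hT _ (Set.mem_insert_of_mem _ (Set.mem_range_self n))).1 hn

lemma finite_of_isCompact (hB : ∀ x : V, x + x = 0)
    (hfull : ∀ T : Set V, T.Countable → ∀ φ : V →+ ZMod 2,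
      ∃ U : Set V, IsOpen U ∧ ∀ t ∈ T, (t ∈ U ↔ φ t = 0))
    {K : Set V} (hK : IsCompact K) : K.Finite := by
  letI : Module (ZMod 2) V := AddCommGroup.zmodModule (n := 2) (by simpa [two_nsmul] using hB)
  obtain ⟨B, hBK, hspan, hli⟩ := exists_linearIndependent (ZMod 2) K
  by_contra hinf
  have hBinf : B.Infinite := by
    intro hfin
    have h1 : Module.Finite (ZMod 2) (Submodule.span (ZMod 2) B) :=
      Module.Finite.span_of_finite _ hfin
    have h2 : Finite (Submodule.span (ZMod 2) B) := Module.finite_of_finite (ZMod 2)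
    rw [hspan] at h2
    exact hinf (Set.Finite.subset (s := (Submodule.span (ZMod 2) K : Set V)) h2
      Submodule.subset_span)
  let a := hBinf.natEmbedding
  have hx : LinearIndependent (ZMod 2) (fun n => (a n : V)) := hli.comp a a.injective
  obtain ⟨p, -, hp⟩ := hK.exists_mapClusterPt (f := atTop) (u := fun n => (a n : V))
    (tendsto_principal.2 (Eventually.of_forall fun n => hBK (a n).2))
  obtain ⟨U, hU, hfin⟩ := exists_nhds_finite hfull hx p
  have := mapClusterPt_iff_frequently.1 hp U hU
  rw [← Nat.cofinite_eq_atTop, Filter.frequently_cofinite_iff_infinite] at this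
  exact this hfin

end Lin

section Char

lemma circle_sq {z : Circle} (h : z * z = 1) : z = 1 ∨ z = -1 := by
  have h1 : (z : ℂ) * z = 1 := by simpa using congrArg (fun w : Circle => (w : ℂ)) h
  rcases mul_self_eq_one_iff.1 h1 with h2 | h2
  · left; exact Circle.ext (by simpa using h2)
  · right; exact Circle.ext (by simpa using h2)

lemma circle_neg_one_ne : (-1 : Circle) ≠ 1 := by
  intro h
  have h1 : ((-1 : Circle) : ℂ) = ((1 : Circle) : ℂ) := congrArg _ h
  simp at h1
  norm_num at h1

variable {A : Type*} [CommGroup A]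

lemma char_values (hA : ∀ a : A, a * a = 1) (φ : A →* Circle) (a : A) : φ a = 1 ∨ φ a = -1 :=
  circle_sq (by rw [← map_mul, hA, map_one])

lemma exists_prod_eq (hA : ∀ a : A, a * a = 1) {ι : Type*} (f : ι → A →* Circle) (F : Finset ι) :
    ∀ (H : Subgroup A) (φ : A →* Circle), (∀ a ∈ H, (∀ i ∈ F, f i a = 1) → φ a = 1) →
      ∃ F' : Finset ι, F' ⊆ F ∧ ∀ a ∈ H, φ a = ∏ i ∈ F', f i a := by
  classical
  induction F using Finset.induction_on with
  | empty => exact fun H φ h => ⟨∅, subset_rfl, fun a ha => by simpa using h a ha (by simp)⟩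
  | insert j F hj ih =>
    intro H φ h
    obtain ⟨F', hF', h1⟩ := ih (H ⊓ (f j).ker) φ fun a ha hi => h a ha.1 fun i hi' => by
      rcases Finset.mem_insert.1 hi' with rfl | hi'
      · exact ha.2
      · exact hi i hi'
    by_cases hall : ∀ a ∈ H, φ a = ∏ i ∈ F', f i a
    · exact ⟨F', hF'.trans (Finset.subset_insert _ _), hall⟩
    · push Not at hall
      obtain ⟨a0, ha0, hne⟩ := hall
      have hj0 : f j a0 = -1 := (char_values hA _ a0).resolve_left fun h' => hne (h1 a0 ⟨ha0, h'⟩)
      have hp0 : φ a0 = - ∏ i ∈ F', f i a0 := by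
        have e1 := char_values hA φ a0
        have e2 := char_values hA (∏ i ∈ F', f i) a0
        rw [MonoidHom.finsetProd_apply] at e2
        rcases e1 with e1 | e1 <;> rcases e2 with e2 | e2 <;> simp_all
      refine ⟨insert j F', Finset.insert_subset_insert _ hF', fun a ha => ?_⟩
      rw [Finset.prod_insert fun h' => hj (hF' h')]
      rcases char_values hA (f j) a with h2 | h2
      · rw [h2, one_mul]
        exact h1 a ⟨ha, h2⟩
      · have h3 := h1 (a * a0) ⟨H.mul_mem ha ha0, by
          show f j (a * a0) = 1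
          rw [map_mul, h2, hj0]; simp⟩
        simp only [map_mul, Finset.prod_mul_distrib, hp0] at h3
        rw [h2, neg_one_mul]
        rw [mul_neg, ← neg_mul] at h3
        rw [← mul_right_cancel h3, neg_neg]

/-- A continuous character for a weak topology is a finite product of the defining ones. -/
lemma exists_prod_of_continuous (hA : ∀ a : A, a * a = 1) [TopologicalSpace A] {ι : Type*}
    (f : ι → A →* Circle) (hf : IsInducing fun (a : A) (i : ι) => f i a)
    (φ : A →* Circle) (hφ : Continuous φ) :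
    ∃ F : Finset ι, ∀ a, φ a = ∏ i ∈ F, f i a := by
  have h1 : φ ⁻¹' {-1}ᶜ ∈ 𝓝 (1 : A) :=
    hφ.continuousAt.preimage_mem_nhds
      (isOpen_compl_singleton.mem_nhds (by simpa using circle_neg_one_ne.symm))
  rw [hf.nhds_eq_comap, nhds_pi, Filter.mem_comap] at h1
  obtain ⟨t, ht, hsub⟩ := h1
  obtain ⟨I, hI, s, hs, hst⟩ := Filter.mem_pi.1 ht
  obtain ⟨F', -, hF'⟩ := exists_prod_eq hA f hI.toFinset ⊤ φ fun a _ ha => by
    have : a ∈ φ ⁻¹' {-1}ᶜ := hsub (hst fun i hi => by
      have h2 := mem_of_mem_nhds (hs i)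
      show f i a ∈ s i
      rw [ha i (by simpa using hi)]
      simpa using h2)
    exact (char_values hA φ a).resolve_right this
  exact ⟨F', fun a => hF' a trivial⟩

lemma isInducing_coe_dual {M : Type*} [Monoid M] [TopologicalSpace M]
    (h : ∀ K : Set M, IsCompact K → K.Finite) :
    IsInducing fun (χ : PontryaginDual M) (a : M) => χ a := by
  have h1 : IsInducing fun (f : C(M, Circle)) (a : M) => f a := by
    refine ⟨le_antisymm (continuous_iff_le_induced.1
      (continuous_pi fun a => continuous_eval_const a)) ?_⟩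
    rw [ContinuousMap.compactOpen_eq]
    refine le_generateFrom ?_
    rintro _ ⟨K, hK, U, hU, rfl⟩
    refine isOpen_induced_iff.2 ⟨Set.pi K fun _ => U, isOpen_set_pi (h K hK) fun _ _ => hU, ?_⟩
    rfl
  exact h1.comp (ContinuousMonoidHom.isInducing_toContinuousMap M Circle)

/-- Evaluation at a point, as an element of the bidual. -/
noncomputable def evalHom (M : Type*) [CommGroup M] [TopologicalSpace M] :
    M →* PontryaginDual (PontryaginDual M) where
  toFun a :=
    { toFun := fun χ => χ a
      map_one' := rfl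
      map_mul' := fun _ _ => rfl
      continuous_toFun := continuous_eval_const (F := M →ₜ* Circle) a }
  map_one' := PontryaginDual.ext fun χ => map_one χ
  map_mul' a b := PontryaginDual.ext fun χ => map_mul χ a b

lemma exists_reflexive (hA : ∀ a : A, a * a = 1) [TopologicalSpace A] [T0Space A]
    (h1 : IsInducing fun (a : A) (χ : PontryaginDual A) => χ a)
    (h2 : ∀ K : Set A, IsCompact K → K.Finite)
    (h3 : ∀ K : Set (PontryaginDual A), IsCompact K → K.Finite) :
    ∃ e : A ≃ₜ* PontryaginDual (PontryaginDual A), ∀ a χ, e a χ = χ a := by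
  have hD : ∀ χ : PontryaginDual A, χ * χ = 1 := fun χ => PontryaginDual.ext fun a => by
    show χ a * χ a = 1
    rw [← map_mul, hA, map_one]
  have hind : IsInducing (evalHom A) := (isInducing_coe_dual h3).of_comp_iff.1 h1
  have hsurj : Function.Surjective (evalHom A) := by
    intro Φ
    obtain ⟨F, hF⟩ := exists_prod_of_continuous hD (fun a : A => (evalHom A a).toMonoidHom)
      (isInducing_coe_dual h2) Φ.toMonoidHom Φ.continuous_toFun
    refine ⟨∏ a ∈ F, a, PontryaginDual.ext fun χ => ?_⟩
    have := hF χ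
    show χ (∏ a ∈ F, a) = Φ χ
    rw [map_prod]
    exact this.symm
  let e := MulEquiv.ofBijective (evalHom A) ⟨hind.injective, hsurj⟩
  let t := e.toEquiv.toHomeomorphOfIsInducing hind
  exact ⟨{ e with
    continuous_toFun := t.continuous_toFun
    continuous_invFun := t.continuous_invFun }, fun a χ => rfl⟩

end Char

end Pool.Agent.Lib.MP_8fa6fd_gt
end

-- part Pool.Agent.Lib.MP_8fa6fd_gt.Weak
section

/-!
The weak topology of a doubly full family of characters is pseudocompact, reflexive and not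
selectively pseudocompact.
-/

namespace Pool.Agent.Lib.MP_8fa6fd_gt

open Topology Filter

variable {G : Type*} [AddCommGroup G] [TopologicalSpace G] {C : Type*} {ψ : C → (G →+ ZMod 2)}

lemma nhds_weak (hτ : IsInducing fun (g : G) (c : C) => ψ c g) {g : G} {N : Set G}
    (hN : N ∈ 𝓝 g) : ∃ F : Finset C, ∀ y, (∀ c ∈ F, ψ c y = ψ c g) → y ∈ N := by
  rw [hτ.nhds_eq_comap, nhds_pi, Filter.mem_comap] at hN
  obtain ⟨t, ht, hsub⟩ := hN
  obtain ⟨I, hI, s, hs, hst⟩ := Filter.mem_pi.1 ht
  refine ⟨hI.toFinset, fun y hy => hsub (hst fun i hi => ?_)⟩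
  show ψ i y ∈ s i
  rw [hy i (by simpa using hi)]
  exact mem_of_mem_nhds (hs i)

lemma continuous_weak (hτ : IsInducing fun (g : G) (c : C) => ψ c g) (c : C) :
    Continuous (ψ c) := (continuous_apply c).comp hτ.continuous

omit [TopologicalSpace G] in
lemma full_countable [Nonempty C]
    (hP : ∀ (c : ℕ → C) (p : C → ZMod 2), ∃ g, ∀ n, ψ (c n) g = p (c n))
    {S : Set C} (hS : S.Countable) (p : C → ZMod 2) : ∃ g, ∀ c ∈ S, ψ c g = p c := by
  obtain ⟨c, hc⟩ := (hS.insert (Classical.arbitrary C)).exists_eq_range (Set.insert_nonempty _ _)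
  obtain ⟨g, hg⟩ := hP c p
  refine ⟨g, fun s hs => ?_⟩
  have : s ∈ Set.range c := hc ▸ Set.mem_insert_of_mem _ hs
  obtain ⟨n, rfl⟩ := this
  exact hg n

theorem pseudocompact_weak (hτ : IsInducing fun (g : G) (c : C) => ψ c g)
    (hP : ∀ S : Set C, S.Countable → ∀ p : C → ZMod 2, ∃ g, ∀ c ∈ S, ψ c g = p c) :
    Pseudocompact G := by
  classical
  intro f hf
  by_contra hcon
  push Not at hcon
  choose x hx using fun n : ℕ => hcon n
  have hF : ∀ n : ℕ, ∃ F : Finset C, ∀ y, (∀ c ∈ F, ψ c y = ψ c (x n)) → (n : ℝ) < |f y| :=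
    fun n => nhds_weak hτ (N := {y | (n : ℝ) < |f y|})
      ((isOpen_lt continuous_const hf.abs).mem_nhds (hx n))
  choose F hF using hF
  obtain ⟨p, -, hp⟩ := (isCompact_univ (X := C → ZMod 2)).exists_mapClusterPt (f := atTop)
    (u := fun n c => ψ c (x n)) (by simp)
  obtain ⟨g, hg⟩ := hP (⋃ n, (F n : Set C)) (Set.countable_iUnion fun n => (F n).countable_toSet) p
  obtain ⟨T, hT⟩ := nhds_weak hτ (g := g) (N := {y | |f y| < |f g| + 1})
    ((isOpen_lt hf.abs continuous_const).mem_nhds (by simp))
  have hfr := mapClusterPt_iff_frequently.1 hp (Set.pi (T : Set C) fun c => {p c})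
    (set_pi_mem_nhds T.finite_toSet fun c _ => by simp [nhds_discrete])
  obtain ⟨N, hN⟩ := exists_nat_gt (|f g| + 1)
  obtain ⟨n, hn1, hn2⟩ := (hfr.and_eventually (eventually_ge_atTop N)).exists
  obtain ⟨y, hy⟩ := hP ((F n ∪ T : Finset C) : Set C) (Finset.countable_toSet _)
    fun c => if c ∈ F n then ψ c (x n) else ψ c g
  have h1 : (n : ℝ) < |f y| := hF n y fun c hc => by
    rw [hy c (by simp [hc]), if_pos hc]
  have h2 : |f y| < |f g| + 1 := hT y fun c hc => by
    rw [hy c (by simp [hc])]
    split_ifs with h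
    · rw [hg c (Set.mem_iUnion.2 ⟨n, h⟩)]
      exact hn1 c hc
    · rfl
  have h3 : (N : ℝ) ≤ n := by exact_mod_cast hn2
  linarith

lemma full_open (hτ : IsInducing fun (g : G) (c : C) => ψ c g)
    (hN : ∀ (T : Set G), T.Countable → ∀ φ : G →+ ZMod 2, ∃ c, ∀ g ∈ T, ψ c g = φ g)
    (T : Set G) (hT : T.Countable) (φ : G →+ ZMod 2) :
    ∃ U : Set G, IsOpen U ∧ ∀ t ∈ T, (t ∈ U ↔ φ t = 0) := by
  obtain ⟨c, hc⟩ := hN T hT φ
  refine ⟨ψ c ⁻¹' {0}, (isOpen_discrete _).preimage (continuous_weak hτ c), fun t ht => ?_⟩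
  rw [← hc t ht]
  rfl

theorem not_selectively_weak [Infinite C] (hB : ∀ x : G, x + x = 0)
    (hτ : IsInducing fun (g : G) (c : C) => ψ c g)
    (hP : ∀ S : Set C, S.Countable → ∀ p : C → ZMod 2, ∃ g, ∀ c ∈ S, ψ c g = p c)
    (hN : ∀ (T : Set G), T.Countable → ∀ φ : G →+ ZMod 2, ∃ c, ∀ g ∈ T, ψ c g = φ g) :
    ¬ SelectivelyPseudocompact G := by
  classical
  letI : Module (ZMod 2) G := AddCommGroup.zmodModule (n := 2) (by simpa [two_nsmul] using hB)
  intro h
  let c := Infinite.natEmbedding C
  let U : ℕ → Set G := fun n =>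
    ⋂ m ∈ Finset.range (n + 1), ψ (c m) ⁻¹' {if m = n then 1 else 0}
  have hUo : ∀ n, IsOpen (U n) := fun n => isOpen_biInter_finset fun m _ =>
    (isOpen_discrete _).preimage (continuous_weak hτ _)
  have hUn : ∀ n, (U n).Nonempty := fun n => by
    obtain ⟨g, hg⟩ := hP (Set.range c) (Set.countable_range c) fun s => if s = c n then 1 else 0
    refine ⟨g, Set.mem_iInter₂.2 fun m _ => ?_⟩
    show ψ (c m) g = _
    rw [hg _ (Set.mem_range_self m)]
    simp
  obtain ⟨x, hx, p, hp⟩ := h U hUo hUn
  have hx' : ∀ n m, m ≤ n → ψ (c m) (x n) = if m = n then 1 else 0 := fun n m hm =>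
    Set.mem_iInter₂.1 (hx n) m (Finset.mem_range.2 (by omega))
  have hli : LinearIndependent (ZMod 2) x := by
    rw [linearIndependent_iff']
    intro s a hs
    by_contra hne
    push Not at hne
    have hex : ∃ i, i ∈ s ∧ a i ≠ 0 := hne
    obtain ⟨hi, hai⟩ := Nat.find_spec hex
    have h1 := congrArg (ψ (c (Nat.find hex))) hs
    rw [map_sum, map_zero, Finset.sum_eq_single (Nat.find hex)] at h1
    · rw [ZMod.map_smul, hx' _ _ le_rfl] at h1
      exact hai (by simpa using h1)
    · intro j hj hne'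
      rw [ZMod.map_smul]
      rcases lt_or_gt_of_ne hne' with hlt | hlt
      · have : a j = 0 := by
          by_contra h0
          exact Nat.find_min hex hlt ⟨hj, h0⟩
        simp [this]
      · rw [hx' _ _ hlt.le, if_neg hlt.ne, smul_zero]
    · exact fun h' => absurd hi h'
  obtain ⟨W, hW, hfin⟩ := exists_nhds_finite (full_open hτ hN) hli p
  exact hp W hW hfin

omit [TopologicalSpace G] in
lemma injective_weak (hB : ∀ x : G, x + x = 0)
    (hN : ∀ (T : Set G), T.Countable → ∀ φ : G →+ ZMod 2, ∃ c, ∀ g ∈ T, ψ c g = φ g) :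
    Function.Injective fun (g : G) (c : C) => ψ c g := by
  letI : Module (ZMod 2) G := AddCommGroup.zmodModule (n := 2) (by simpa [two_nsmul] using hB)
  intro g1 g2 h
  by_contra hne
  obtain ⟨f, hf⟩ := Module.Projective.exists_dual_ne_zero (ZMod 2) (sub_ne_zero.2 hne)
  obtain ⟨c, hc⟩ := hN {g1 - g2} (Set.countable_singleton _) f.toAddMonoidHom
  have h1 := hc _ rfl
  have h2 : ψ c g1 = ψ c g2 := congrFun h c
  rw [map_sub, h2, sub_self] at h1
  exact hf h1.symm

theorem reflexive_weak [T2Space G] (hB : ∀ x : G, x + x = 0)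
    (hτ : IsInducing fun (g : G) (c : C) => ψ c g)
    (hP : ∀ S : Set C, S.Countable → ∀ p : C → ZMod 2, ∃ g, ∀ c ∈ S, ψ c g = p c)
    (hN : ∀ (T : Set G), T.Countable → ∀ φ : G →+ ZMod 2, ∃ c, ∀ g ∈ T, ψ c g = φ g) :
    Reflexive G := by
  classical
  have hA : ∀ a : Multiplicative G, a * a = 1 := fun a => hB a.toAdd
  let ε : C → PontryaginDual (Multiplicative G) := fun c =>
    { toFun := fun a => ZMod.toCircle (ψ c a.toAdd)
      map_one' := by simp
      map_mul' := fun a b => by simp [AddChar.map_add_eq_mul]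
      continuous_toFun := continuous_of_discreteTopology.comp
        ((continuous_weak hτ c).comp continuous_toAdd) }
  have hε : ∀ c a, ε c a = ZMod.toCircle (ψ c a.toAdd) := fun _ _ => rfl
  have htc : IsInducing (ZMod.toCircle : ZMod 2 → Circle) :=
    (continuous_of_discreteTopology.isClosedEmbedding ZMod.injective_toCircle).isInducing
  have hind : IsInducing fun (a : Multiplicative G) (c : C) => ε c a :=
    (IsInducing.piMap fun _ : C => htc).comp hτ
  have h1 : IsInducing fun (a : Multiplicative G) (χ : PontryaginDual (Multiplicative G)) => χ a :=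
    IsInducing.of_comp (g := fun (F : PontryaginDual (Multiplicative G) → Circle) (c : C) => F (ε c))
      (continuous_pi fun χ => map_continuous χ) (continuous_pi fun c => continuous_apply _) hind
  have h2 : ∀ K : Set (Multiplicative G), IsCompact K → K.Finite := fun K hK =>
    finite_of_isCompact (V := G) hB (full_open hτ hN) hK
  have hD : ∀ χ : PontryaginDual (Multiplicative G), χ * χ = 1 := fun χ =>
    PontryaginDual.ext fun a => by
      show χ a * χ a = 1
      rw [← map_mul, hA, map_one]
  have h3 : ∀ K : Set (PontryaginDual (Multiplicative G)), IsCompact K → K.Finite := by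
    intro K hK
    refine finite_of_isCompact (V := Additive (PontryaginDual (Multiplicative G))) hD ?_ hK
    intro T hT Φ
    have hF : ∀ t : PontryaginDual (Multiplicative G), ∃ F : Finset C, t = ∏ c ∈ F, ε c := by
      intro t
      obtain ⟨F, hF⟩ := exists_prod_of_continuous hA (fun c => (ε c).toMonoidHom) hind
        t.toMonoidHom t.continuous_toFun
      refine ⟨F, PontryaginDual.ext fun a => ?_⟩
      have e1 := map_prod (evalHom (Multiplicative G) a) ε F
      exact (hF a).trans e1.symm
    choose F hF using hF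
    obtain ⟨g, hg⟩ := hP (⋃ t ∈ T, (F t.toMul : Set C))
      (hT.biUnion fun t _ => Finset.countable_toSet _) fun c => Φ (Additive.ofMul (ε c))
    let ev := evalHom (Multiplicative G) (Multiplicative.ofAdd g)
    refine ⟨{t | ev t.toMul ≠ -1}, ?_, fun t ht => ?_⟩
    · exact isOpen_ne_fun ((map_continuous ev).comp continuous_toMul) continuous_const
    · have e1 : ev t.toMul = ZMod.toCircle (Φ t) := by
        have e2 : t = ∑ c ∈ F t.toMul, Additive.ofMul (ε c) := by
          rw [← ofMul_prod, ← hF]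
          rfl
        conv_rhs => rw [e2, map_sum]
        conv_lhs => rw [hF t.toMul, map_prod]
        have e5 : ∀ (S : Finset C) (v : C → ZMod 2),
            ZMod.toCircle (∑ c ∈ S, v c) = ∏ c ∈ S, ZMod.toCircle (v c) := by
          intro S v
          induction S using Finset.induction_on with
          | empty => simp
          | insert j S hj ih => rw [Finset.sum_insert hj, Finset.prod_insert hj,
              AddChar.map_add_eq_mul, ih]
        rw [e5]
        refine Finset.prod_congr rfl fun c hc => ?_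
        rw [← hg c (Set.mem_biUnion ht hc)]
        rfl
      show ev t.toMul ≠ -1 ↔ _
      have e3 := char_values hD ev.toMonoidHom t.toMul
      constructor
      · intro h
        have e4 : ev t.toMul = 1 := e3.resolve_right h
        rw [e1] at e4
        exact ZMod.injective_toCircle (by simpa using e4)
      · intro h
        rw [e1, h]
        simpa using circle_neg_one_ne.symm
  have h0 : T0Space (Multiplicative G) := inferInstanceAs (T0Space G)
  exact exists_reflexive hA h1 h2 h3

end Pool.Agent.Lib.MP_8fa6fd_gt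
end
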